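import Pool.Agent.LibSperner53.Example

set_option autoImplicit false

namespace Pool.Agent.Results.MP_88bae6_co.NonFlat

open Pool.Agent.LibSperner53

theorem result : ∀ n : ℕ, 2 ^ 55 < n →
    2 ^ sat n 7 < n ∧ ∃ F : Finset (Finset (Fin n)), Optimal 7 F ∧ ¬ Flat 7 F := by
  intro n hn
  have h11 : 11 ≤ n := by
    have : (11 : ℕ) ≤ 2 ^ 55 := by norm_num
    omega
  have h9 : 9 ≤ n := by omega
  have hsat : Saturated 7 (ex h9) := saturated_ex h9 h11
  have hle : sat n 7 ≤ (ex h9).card := Nat.sInf_le ⟨ex h9, hsat, rfl⟩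
  have hcard : (ex h9).card ≤ 55 := card_ex h9
  refine ⟨lt_of_le_of_lt (Nat.pow_le_pow_right (by norm_num) (hle.trans hcard)) hn, ?_⟩
  have hne : {m : ℕ | ∃ F : Finset (Finset (Fin n)), Saturated 7 F ∧ F.card = m}.Nonempty :=
    ⟨_, ex h9, hsat, rfl⟩
  obtain ⟨F, hF, hFc⟩ := Nat.sInf_mem hne
  have hFc' : F.card = sat n 7 := hFc
  by_cases hflat : Flat 7 F
  · have h1 : 2 ^ F.card < n := by
      rw [hFc']
      exact lt_of_le_of_lt (Nat.pow_le_pow_right (by norm_num) (hle.trans hcard)) hn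
    obtain ⟨H, hH⟩ := exists_homAtom h1
    have h2 := flat_ge hF hH hflat
    exact ⟨ex h9, ⟨hsat, by omega⟩, not_flat_ex h9 h11⟩
  · exact ⟨F, ⟨hF, hFc'⟩, hflat⟩

end Pool.Agent.Results.MP_88bae6_co.NonFlat
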